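import Pool.Agent.Helper17.CT.Defs

set_option autoImplicit false

/-! CT-18: the Euler formula implies planarity in the homological sense. -/

namespace Pool.Agent.Helper17.CT.Ct18

open Module

variable {D : Type} (M : CMap D)

/-- the coefficients -/
abbrev K2 : Type := ZMod 2

theorem k2_add_self {α : Type} (z : α → K2) : z + z = 0 := by
  funext x
  exact CharTwo.add_self_eq_zero (z x)

/-- edge functions -/
def EE : Submodule K2 (D → K2) where
  carrier := {z | ∀ d, z (M.a d) = z d}
  add_mem' := by
    intro x y hx hy d
    change x (M.a d) + y (M.a d) = x d + y d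
    rw [hx d, hy d]
  zero_mem' := fun _ => rfl
  smul_mem' := by
    intro c x hx d
    change c * x (M.a d) = c * x d
    rw [hx d]

/-- vertex functions -/
def VV : Submodule K2 (D → K2) where
  carrier := {z | ∀ d, z (M.s d) = z d}
  add_mem' := by
    intro x y hx hy d
    change x (M.s d) + y (M.s d) = x d + y d
    rw [hx d, hy d]
  zero_mem' := fun _ => rfl
  smul_mem' := by
    intro c x hx d
    change c * x (M.s d) = c * x d
    rw [hx d]

/-- the boundary operator -/
def dl : (D → K2) →ₗ[K2] (D → K2) where
  toFun z := fun d => z d + z (M.s d) + z (M.s (M.s d))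
  map_add' x y := by
    funext d
    change (x d + y d) + (x _ + y _) + (x _ + y _) = (x d + x _ + x _) + (y d + y _ + y _)
    ring
  map_smul' c x := by
    funext d
    change c * x d + c * x _ + c * x _ = c * (x d + x _ + x _)
    ring

/-- the coboundary operator on face functions -/
def fc : (Quot (fun x y : D => M.f x = y) → K2) →ₗ[K2] (D → K2) where
  toFun φ := fun d => φ (Quot.mk _ d) + φ (Quot.mk _ (M.a d))
  map_add' x y := by
    funext d
    change (x _ + y _) + (x _ + y _) = (x _ + x _) + (y _ + y _)
    ring
  map_smul' c x := by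
    funext d
    change c * x _ + c * x _ = c * (x _ + x _)
    ring

theorem mk_f (d : D) : (Quot.mk _ (M.f d) : Quot (fun x y : D => M.f x = y)) = Quot.mk _ d :=
  (Quot.sound (r := fun x y : D => M.f x = y) (a := d) (b := M.f d) rfl).symm

theorem fss {α : Type} [Fintype α] (v : α → K2) :
    finrank K2 (Submodule.span K2 {v} : Submodule K2 (α → K2)) ≤ 1 := by
  have h := finrank_span_le_card (R := K2) ({v} : Set (α → K2))
  simpa using h

theorem mk_s (d : D) :
    (Quot.mk _ (M.s d) : Quot (fun x y : D => M.f x = y)) = Quot.mk _ (M.a d) := by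
  rw [← mk_f M (M.a d)]
  unfold CMap.f
  rw [M.a2]

theorem fc_mem_EE (φ : Quot (fun x y : D => M.f x = y) → K2) : fc M φ ∈ EE M := by
  intro d
  change φ (Quot.mk _ (M.a d)) + φ (Quot.mk _ (M.a (M.a d))) =
    φ (Quot.mk _ d) + φ (Quot.mk _ (M.a d))
  rw [M.a2, add_comm]

theorem dl_fc (φ : Quot (fun x y : D => M.f x = y) → K2) : dl M (fc M φ) = 0 := by
  funext d
  change (φ (Quot.mk _ d) + φ (Quot.mk _ (M.a d))) +
    (φ (Quot.mk _ (M.s d)) + φ (Quot.mk _ (M.a (M.s d)))) +
    (φ (Quot.mk _ (M.s (M.s d))) + φ (Quot.mk _ (M.a (M.s (M.s d))))) = 0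
  rw [← mk_s, ← mk_s, ← mk_s, M.s3]
  generalize φ (Quot.mk _ d) = x
  generalize φ (Quot.mk _ (M.s d)) = y
  generalize φ (Quot.mk _ (M.s (M.s d))) = z
  revert x y z
  decide

theorem ker_fc_const (hconn : ∀ x y, Conn M.s M.a (fun _ => true) x y)
    (φ : Quot (fun x y : D => M.f x = y) → K2) (h : fc M φ = 0) (x y : D) :
    φ (Quot.mk _ x) = φ (Quot.mk _ y) := by
  have h1 : ∀ d, φ (Quot.mk _ (M.a d)) = φ (Quot.mk _ d) := by
    intro d
    have h2 : φ (Quot.mk _ d) + φ (Quot.mk _ (M.a d)) = 0 := congrFun h d
    exact (CharTwo.add_eq_zero.1 h2).symm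
  have h2 : ∀ d, φ (Quot.mk _ (M.s d)) = φ (Quot.mk _ d) := by
    intro d
    rw [mk_s, h1]
  have h3 := hconn x y
  induction h3 with
  | refl => rfl
  | tail _ hst ih =>
    rw [ih]
    rcases hst.2.2 with h | h | h
    · rw [h, h1]
    · rw [h, h2]
    · rw [h, h2, h2]

theorem s2_ne (d : D) : M.s (M.s d) ≠ d := by
  intro h
  have h1 := congrArg M.s h
  rw [M.s3] at h1
  exact M.s1 d h1.symm

/-- the setoid of vertices -/
def vset : Setoid D where
  r x y := M.VEq x y
  iseqv := by
    refine ⟨fun x => Or.inl rfl, ?_, ?_⟩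
    · rintro x y (h | h | h)
      · exact Or.inl h.symm
      · right; right; rw [h, M.s3]
      · right; left; rw [h, M.s3]
    · rintro x y z (h | h | h) (h' | h' | h')
      · left; rw [h', h]
      · right; left; rw [h', h]
      · right; right; rw [h', h]
      · right; left; rw [h', h]
      · right; right; rw [h', h]
      · left; rw [h', h, M.s3]
      · right; right; rw [h', h]
      · left; rw [h', h, M.s3]
      · right; left; rw [h', h, M.s3]

/-- the setoid of edges -/
def eset : Setoid D where
  r x y := y = x ∨ y = M.a x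
  iseqv := by
    refine ⟨fun x => Or.inl rfl, ?_, ?_⟩
    · rintro x y (h | h)
      · exact Or.inl h.symm
      · right; rw [h, M.a2]
    · rintro x y z (h | h) (h' | h')
      · left; rw [h', h]
      · right; rw [h', h]
      · right; rw [h', h]
      · left; rw [h', h, M.a2]

theorem card_vset [Fintype D] [Fintype (Quotient (vset M))] :
    Fintype.card D = 3 * Fintype.card (Quotient (vset M)) := by
  classical
  have h := Finset.card_eq_sum_card_fiberwise (f := fun d : D => (Quotient.mk (vset M) d))
    (s := Finset.univ) (t := Finset.univ) (fun _ _ => Finset.mem_coe.2 (Finset.mem_univ _))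
  rw [Finset.card_univ] at h
  rw [h, Finset.sum_const_nat (m := 3), Finset.card_univ, mul_comm]
  intro q _
  induction q using Quotient.inductionOn with | _ d => ?_
  have h1 : (Finset.univ.filter fun x : D => Quotient.mk (vset M) x = Quotient.mk (vset M) d) =
      {d, M.s d, M.s (M.s d)} := by
    ext x
    rw [Finset.mem_filter]
    constructor
    · rintro ⟨-, hx⟩
      have h2 : M.VEq d x := (Quotient.exact hx.symm)
      simp only [Finset.mem_insert, Finset.mem_singleton]
      exact h2
    · intro hx
      simp only [Finset.mem_insert, Finset.mem_singleton] at hx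
      exact ⟨Finset.mem_univ _, (Quotient.sound (s := vset M) hx).symm⟩
  rw [h1, Finset.card_eq_three]
  exact ⟨d, M.s d, M.s (M.s d), (M.s1 d).symm, (s2_ne M d).symm, (M.s1 (M.s d)).symm, rfl⟩

theorem card_eset [Fintype D] [Fintype (Quotient (eset M))] :
    Fintype.card D = 2 * Fintype.card (Quotient (eset M)) := by
  classical
  have h := Finset.card_eq_sum_card_fiberwise (f := fun d : D => (Quotient.mk (eset M) d))
    (s := Finset.univ) (t := Finset.univ) (fun _ _ => Finset.mem_coe.2 (Finset.mem_univ _))
  rw [Finset.card_univ] at h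
  rw [h, Finset.sum_const_nat (m := 2), Finset.card_univ, mul_comm]
  intro q _
  induction q using Quotient.inductionOn with | _ d => ?_
  have h1 : (Finset.univ.filter fun x : D => Quotient.mk (eset M) x = Quotient.mk (eset M) d) =
      {d, M.a d} := by
    ext x
    rw [Finset.mem_filter]
    constructor
    · rintro ⟨-, hx⟩
      have h2 : x = d ∨ x = M.a d := (Quotient.exact hx.symm)
      simp only [Finset.mem_insert, Finset.mem_singleton]
      exact h2
    · intro hx
      simp only [Finset.mem_insert, Finset.mem_singleton] at hx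
      exact ⟨Finset.mem_univ _, (Quotient.sound (s := eset M) hx).symm⟩
  rw [h1, Finset.card_pair (M.a1 d).symm]

theorem finrank_VV [Fintype D] : Fintype.card D ≤ 3 * finrank K2 (VV M) := by
  classical
  have : Fintype (Quotient (vset M)) := Fintype.ofFinite _
  rw [card_vset M]
  refine Nat.mul_le_mul_left 3 ?_
  have hinj : Function.Injective (LinearMap.funLeft K2 K2 (Quotient.mk (vset M))) :=
    LinearMap.funLeft_injective_of_surjective _ _ _ Quotient.mk_surjective
  have h1 : LinearMap.range (LinearMap.funLeft K2 K2 (Quotient.mk (vset M))) ≤ VV M := by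
    rintro _ ⟨w, rfl⟩ d
    change w (Quotient.mk (vset M) (M.s d)) = w (Quotient.mk (vset M) d)
    congr 1
    exact (Quotient.sound (s := vset M) (Or.inr (Or.inl rfl))).symm
  have h2 := Submodule.finrank_mono h1
  rw [LinearMap.finrank_range_of_inj hinj, finrank_fintype_fun_eq_card] at h2
  exact h2

theorem finrank_EE [Fintype D] : 2 * finrank K2 (EE M) ≤ Fintype.card D := by
  classical
  have : Fintype (Quotient (eset M)) := Fintype.ofFinite _
  rw [card_eset M]
  refine Nat.mul_le_mul_left 2 ?_
  have h1 : EE M ≤ LinearMap.range (LinearMap.funLeft K2 K2 (Quotient.mk (eset M))) := by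
    intro z hz
    refine ⟨Quotient.lift z ?_, ?_⟩
    · rintro x y (h | h)
      · rw [h]
      · rw [h, hz x]
    · funext d
      rfl
  have h2 := Submodule.finrank_mono h1
  have h3 := LinearMap.finrank_range_le (LinearMap.funLeft K2 K2 (Quotient.mk (eset M)))
  rw [finrank_fintype_fun_eq_card] at h3
  exact h2.trans h3

/-- indicator function of a vertex -/
def ev [DecidableEq D] (x : D) : D → K2 :=
  Pi.single x 1 + Pi.single (M.s x) 1 + Pi.single (M.s (M.s x)) 1

theorem ev_s [DecidableEq D] (x : D) : ev M (M.s x) = ev M x := by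
  unfold ev
  rw [M.s3]
  abel

theorem dl_single [DecidableEq D] (x : D) : dl M (Pi.single x 1) = ev M x := by
  funext d
  change (Pi.single x 1 : D → K2) d + (Pi.single x 1 : D → K2) (M.s d) +
    (Pi.single x 1 : D → K2) (M.s (M.s d)) = (Pi.single x 1 : D → K2) d +
    (Pi.single (M.s x) 1 : D → K2) d + (Pi.single (M.s (M.s x)) 1 : D → K2) d
  simp only [Pi.single_apply]
  have h1 : (M.s d = x) ↔ (d = M.s (M.s x)) := by
    constructor
    · rintro rfl; rw [M.s3]
    · rintro rfl; rw [M.s3]
  have h2 : (M.s (M.s d) = x) ↔ (d = M.s x) := by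
    constructor
    · rintro rfl; rw [M.s3]
    · rintro rfl; rw [M.s3]
  simp only [h1, h2]
  ring

theorem VV_le [Fintype D] [DecidableEq D] (hconn : ∀ x y, Conn M.s M.a (fun _ => true) x y)
    (d0 : D) : VV M ≤ (EE M).map (dl M) ⊔ Submodule.span K2 {ev M d0} := by
  set R := (EE M).map (dl M) ⊔ Submodule.span K2 {ev M d0} with hR
  have hev : ∀ d, ev M d ∈ R := by
    intro d
    have h := hconn d0 d
    induction h with
    | refl => exact (le_sup_right : _ ≤ R) (Submodule.mem_span_singleton_self _)
    | @tail b c _ hst ih =>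
      rcases hst.2.2 with h | h | h
      · have h1 : (Pi.single b 1 + Pi.single (M.a b) 1 : D → K2) ∈ EE M := by
          intro d
          simp only [Pi.add_apply, Pi.single_apply]
          have h1 : (M.a d = b) ↔ (d = M.a b) := by
            constructor
            · rintro rfl; rw [M.a2]
            · rintro rfl; rw [M.a2]
          have h2 : (M.a d = M.a b) ↔ (d = b) := by
            constructor
            · intro h; have := congrArg M.a h; rwa [M.a2, M.a2] at this
            · rintro rfl; rfl
          simp only [h1, h2]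
          rw [add_comm]
        have h2 : dl M (Pi.single b 1 + Pi.single (M.a b) 1) ∈ R :=
          (le_sup_left : _ ≤ R) (Submodule.mem_map_of_mem h1)
        rw [map_add, dl_single, dl_single] at h2
        have h3 : ev M c = ev M b + (ev M b + ev M (M.a b)) := by
          rw [← add_assoc, k2_add_self, zero_add, h]
        rw [h3]
        exact add_mem ih h2
      · rw [h, ev_s]; exact ih
      · rw [h, ev_s, ev_s]; exact ih
  intro w hw
  have h1 : w = ∑ x : D, w x • ev M x := by
    funext y
    rw [Finset.sum_apply]
    simp only [ev, Pi.smul_apply, Pi.add_apply, Pi.single_apply, smul_eq_mul, mul_add, mul_ite,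
      mul_one, mul_zero, Finset.sum_add_distrib]
    have h2 : ∀ x, (y = M.s x) ↔ (x = M.s (M.s y)) := by
      intro x
      constructor
      · rintro rfl; rw [M.s3]
      · rintro rfl; rw [M.s3]
    have h3 : ∀ x, (y = M.s (M.s x)) ↔ (x = M.s y) := by
      intro x
      constructor
      · rintro rfl; rw [M.s3]
      · rintro rfl; rw [M.s3]
    simp only [h3]
    simp only [h2, Finset.sum_ite_eq, Finset.sum_ite_eq', Finset.mem_univ, if_true]
    have h4 := hw y
    have h5 := hw (M.s y)
    rw [h5, h4, CharTwo.add_self_eq_zero, zero_add]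
  rw [h1]
  exact sum_mem fun x _ => R.smul_mem _ (hev x)

end Pool.Agent.Helper17.CT.Ct18

namespace Pool.Agent.Helper17.CT

open Module Ct18

variable {D : Type} (M : CMap D)

/-- CT-18 -/
theorem planar_of_euler [Finite D] (hconn : ∀ x y, Conn M.s M.a (fun _ => true) x y)
    (he : 6 * Nat.card (Quot (fun x y : D => M.f x = y)) = Nat.card D + 12) : M.Planar := by
  classical
  have : Fintype D := Fintype.ofFinite D
  have : Fintype (Quot (fun x y : D => M.f x = y)) := Fintype.ofFinite _
  rw [Nat.card_eq_fintype_card, Nat.card_eq_fintype_card] at he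
  have hne : Nonempty D := by
    by_contra hcon
    rw [not_nonempty_iff] at hcon
    have h1 : IsEmpty (Quot (fun x y : D => M.f x = y)) := ⟨fun q => Quot.ind
      (β := fun _ => False) (fun d => hcon.false d) q⟩
    rw [Fintype.card_eq_zero, Fintype.card_eq_zero] at he
    omega
  obtain ⟨d0⟩ := hne
  -- the even sets
  set Ev : Submodule K2 (D → K2) := LinearMap.ker (dl M) ⊓ EE M with hEv
  -- dimension of the image of the coboundary
  have hker : finrank K2 (LinearMap.ker (fc M)) ≤ 1 := by
    have h1 : LinearMap.ker (fc M) ≤ Submodule.span K2 {fun _ => (1 : K2)} := by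
      intro φ hφ
      rw [Submodule.mem_span_singleton]
      refine ⟨φ (Quot.mk _ d0), ?_⟩
      funext q
      induction q using Quot.ind with | _ d => ?_
      change φ (Quot.mk _ d0) * 1 = φ (Quot.mk _ d)
      rw [mul_one]
      exact ker_fc_const M hconn φ hφ d0 d
    exact (Submodule.finrank_mono h1).trans (fss _)
  have hrn := LinearMap.finrank_range_add_finrank_ker (fc M)
  rw [finrank_fintype_fun_eq_card] at hrn
  have hle : LinearMap.range (fc M) ≤ Ev := by
    rintro _ ⟨φ, rfl⟩
    exact ⟨dl_fc M φ, fc_mem_EE M φ⟩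
  -- dimension of the even sets
  have h1 := LinearMap.finrank_range_add_finrank_ker ((dl M).domRestrict (EE M))
  rw [LinearMap.range_domRestrict, LinearMap.ker_domRestrict] at h1
  have h2 : finrank K2 (LinearMap.ker (dl M) ⊓ EE M : Submodule K2 (D → K2)) =
      finrank K2 ((LinearMap.ker (dl M)).submoduleOf (EE M)) := by
    have e : Submodule.map (EE M).subtype ((LinearMap.ker (dl M)).submoduleOf (EE M)) =
        EE M ⊓ LinearMap.ker (dl M) := Submodule.map_comap_subtype _ _
    rw [inf_comm, ← e, Submodule.finrank_map_subtype_eq]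
  have h3 := Submodule.finrank_mono (VV_le M hconn d0)
  have h4 := Submodule.finrank_add_le_finrank_add_finrank ((EE M).map (dl M))
    (Submodule.span K2 {ev M d0})
  have h5 := fss (ev M d0)
  have h6 := finrank_VV M
  have h7 := finrank_EE M
  have heq : LinearMap.range (fc M) = Ev := by
    refine Submodule.eq_of_le_of_finrank_le hle ?_
    rw [hEv, h2]
    have h8 : finrank K2 ((LinearMap.ker (dl M)).submoduleOf (EE M)) =
        finrank K2 (Submodule.comap (EE M).subtype (LinearMap.ker (dl M))) := rfl
    omega
  intro Z hZ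
  have hz : (fun d => if Z d then (1 : K2) else 0) ∈ Ev := by
    refine ⟨?_, ?_⟩
    · change dl M _ = 0
      funext d
      change (if Z d then (1 : K2) else 0) + (if Z (M.s d) then (1 : K2) else 0) +
        (if Z (M.s (M.s d)) then (1 : K2) else 0) = 0
      have h8 := hZ.2 d
      generalize Z d = x at h8
      generalize Z (M.s d) = y at h8
      generalize Z (M.s (M.s d)) = z at h8
      revert x y z
      decide
    · intro d
      change (if Z (M.a d) then (1 : K2) else 0) = (if Z d then (1 : K2) else 0)
      rw [hZ.1 d]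
  rw [← heq] at hz
  obtain ⟨φ, hφ⟩ := hz
  refine ⟨fun d => decide (φ (Quot.mk _ d) = 1), fun d => ?_, fun d => ?_⟩
  · simp only [mk_f]
  · have h8 : φ (Quot.mk _ d) + φ (Quot.mk _ (M.a d)) = if Z d then (1 : K2) else 0 :=
      congrFun hφ d
    simp only
    generalize φ (Quot.mk _ d) = x at h8
    generalize φ (Quot.mk _ (M.a d)) = y at h8
    generalize Z d = z at h8
    revert x y z
    decide

end Pool.Agent.Helper17.CT
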